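import Pool.Agent.Q120.FA.Stm

/-! Project FA (helper120), job ZR (helper124): the neighbourhood of `0`. -/

set_option autoImplicit false

namespace Pool.Agent.Q124.FA

open MeasureTheory Filter Topology Set
open Pool.Agent.Q120.FA

theorem tend_of_le {u : ℕ → ℝ} {L C : ℝ} (h : ∀ᶠ N : ℕ in atTop, |u N - L| ≤ C / N) :
    Tendsto u atTop (𝓝 L) := by
  rw [tendsto_iff_norm_sub_tendsto_zero]
  exact squeeze_zero' (Eventually.of_forall fun N => norm_nonneg _) h
    (tendsto_const_div_atTop_nhds_zero_nat C)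

/-! ## The sum of the totient function -/

theorem Icc_eq (N : ℕ) : Finset.Icc 1 N = Finset.Ioc 0 N := by
  ext x
  simp only [Finset.mem_Icc, Finset.mem_Ioc]
  omega

theorem sum_id (k : ℕ) : ∑ m ∈ Finset.Ioc 0 k, (m : ℝ) = (k : ℝ) * (k + 1) / 2 := by
  induction k with
  | zero => simp
  | succ k ih =>
    rw [Finset.sum_Ioc_succ_top (Nat.zero_le k), ih]
    push_cast
    ring

theorem totient_sum (N : ℕ) : ∑ n ∈ Finset.Icc 1 N, (n.totient : ℝ) =
    ∑ d ∈ Finset.Icc 1 N, ((ArithmeticFunction.moebius d : ℤ) : ℝ) * (((N / d : ℕ) : ℝ) * ((N / d : ℕ) + 1) / 2) := by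
  have hconv : ∀ n > 0, ∑ x ∈ n.divisorsAntidiagonal,
      ((ArithmeticFunction.moebius x.1 : ℤ) : ℝ) * (x.2 : ℝ) = (n.totient : ℝ) := by
    refine (ArithmeticFunction.sum_eq_iff_sum_mul_moebius_eq (R := ℝ) (f := fun n => (n.totient : ℝ))
      (g := fun n => (n : ℝ))).1 ?_
    intro n _
    exact_mod_cast Nat.sum_totient n
  have h := ArithmeticFunction.sum_Ioc_mul_eq_sum_sum (R := ℝ)
    ((ArithmeticFunction.moebius : ArithmeticFunction ℤ) : ArithmeticFunction ℝ)
    ((ArithmeticFunction.id : ArithmeticFunction ℕ) : ArithmeticFunction ℝ) N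
  rw [Icc_eq]
  calc ∑ n ∈ Finset.Ioc 0 N, (n.totient : ℝ) = ∑ n ∈ Finset.Ioc 0 N,
        (((ArithmeticFunction.moebius : ArithmeticFunction ℤ) : ArithmeticFunction ℝ) *
          ((ArithmeticFunction.id : ArithmeticFunction ℕ) : ArithmeticFunction ℝ)) n := by
        refine Finset.sum_congr rfl fun n hn => ?_
        rw [ArithmeticFunction.mul_apply]
        simp only [ArithmeticFunction.intCoe_apply, ArithmeticFunction.natCoe_apply,
          ArithmeticFunction.id_apply]
        exact (hconv n (Finset.mem_Ioc.1 hn).1).symm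
    _ = _ := by
        rw [h]
        refine Finset.sum_congr rfl fun d _ => ?_
        simp only [ArithmeticFunction.intCoe_apply, ArithmeticFunction.natCoe_apply,
          ArithmeticFunction.id_apply]
        rw [sum_id]

theorem moebius_tsum : ∑' d : ℕ, ((ArithmeticFunction.moebius d : ℤ) : ℝ) / (d : ℝ) ^ 2 = 6 / Real.pi ^ 2 := by
  have h2 : (1 : ℝ) < (2 : ℂ).re := by norm_num
  have h := ArithmeticFunction.LSeries_zeta_mul_Lseries_moebius h2
  rw [ArithmeticFunction.LSeries_zeta_eq_riemannZeta h2, riemannZeta_two] at h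
  have hpi : (Real.pi : ℂ) ≠ 0 := by exact_mod_cast Real.pi_ne_zero
  have h3 : LSeries (fun n => ((ArithmeticFunction.moebius n : ℤ) : ℂ)) 2 = 6 / (Real.pi : ℂ) ^ 2 := by
    field_simp
    field_simp at h
    linear_combination h
  apply Complex.ofReal_injective
  rw [Complex.ofReal_tsum]
  push_cast
  rw [← h3]
  unfold LSeries
  refine tsum_congr fun d => ?_
  unfold LSeries.term
  split_ifs with hd
  · simp [hd]
  · congr 1
    norm_num

theorem totient_lim : Tendsto (fun N : ℕ => (∑ n ∈ Finset.Icc 1 N, (n.totient : ℝ)) / (N : ℝ) ^ 2) atTop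
    (𝓝 (3 / Real.pi ^ 2)) := by
  have hT : Tendsto (fun N : ℕ => ∑' d : ℕ, ((ArithmeticFunction.moebius d : ℤ) : ℝ) *
      (((N / d : ℕ) : ℝ) * ((N / d : ℕ) + 1) / 2) / (N : ℝ) ^ 2) atTop
      (𝓝 (∑' d : ℕ, ((ArithmeticFunction.moebius d : ℤ) : ℝ) / (d : ℝ) ^ 2 / 2)) := by
    refine tendsto_tsum_of_dominated_convergence (bound := fun d : ℕ => 1 / (d : ℝ) ^ 2)
      (Real.summable_one_div_nat_pow.2 (by norm_num)) ?_ (Eventually.of_forall ?_)
    · intro d
      rcases Nat.eq_zero_or_pos d with rfl | hd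
      · simp
      · have hd' : (0 : ℝ) < d := by exact_mod_cast hd
        have hq : Tendsto (fun N : ℕ => ((N / d : ℕ) : ℝ) / N) atTop (𝓝 (1 / d)) := by
          refine tend_of_le (C := 1) ?_
          filter_upwards [eventually_ge_atTop 1] with N hN
          have hN' : (0 : ℝ) < N := by exact_mod_cast hN
          have h1 : ((N / d : ℕ) : ℝ) * d ≤ N := by exact_mod_cast Nat.div_mul_le_self N d
          have h2 : (N : ℝ) ≤ ((N / d : ℕ) : ℝ) * d + d := by
            have h3 := Nat.div_add_mod N d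
            have h4 := Nat.mod_lt N hd
            have h5 : N ≤ N / d * d + d := by
              rw [mul_comm]
              omega
            exact_mod_cast h5
          have e : ((N / d : ℕ) : ℝ) / N - 1 / d = (((N / d : ℕ) : ℝ) * d - N) / (N * d) := by
            field_simp
          rw [e, abs_div, abs_of_pos (mul_pos hN' hd'), div_le_div_iff₀ (mul_pos hN' hd') hN', one_mul,
            abs_of_nonpos (by linarith)]
          nlinarith
        have h1N : Tendsto (fun N : ℕ => 1 / (N : ℝ)) atTop (𝓝 0) := tendsto_one_div_atTop_nhds_zero_nat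
        have h := ((hq.mul (hq.add h1N)).div_const 2).const_mul ((ArithmeticFunction.moebius d : ℤ) : ℝ)
        have e1 : ((ArithmeticFunction.moebius d : ℤ) : ℝ) * (1 / (d : ℝ) * (1 / d + 0) / 2) =
            ((ArithmeticFunction.moebius d : ℤ) : ℝ) / (d : ℝ) ^ 2 / 2 := by
          rw [add_zero]
          field_simp
        rw [e1] at h
        refine h.congr' ?_
        filter_upwards [eventually_ge_atTop 1] with N hN
        have hN' : (0 : ℝ) < N := by exact_mod_cast hN
        field_simp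
    · intro N d
      rw [norm_div, norm_mul, Real.norm_eq_abs, Real.norm_eq_abs, Real.norm_eq_abs]
      rcases Nat.eq_zero_or_pos d with rfl | hd
      · simp
      rcases Nat.eq_zero_or_pos N with rfl | hN
      · simp
      have hd' : (0 : ℝ) < d := by exact_mod_cast hd
      have hN' : (0 : ℝ) < N := by exact_mod_cast hN
      have hmu : |((ArithmeticFunction.moebius d : ℤ) : ℝ)| ≤ 1 := by
        exact_mod_cast (ArithmeticFunction.abs_moebius_le_one (n := d))
      have hk : (((N / d : ℕ) : ℝ) * ((N / d : ℕ) + 1) / 2) ≤ ((N / d : ℕ) : ℝ) ^ 2 := by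
        rcases Nat.eq_zero_or_pos (N / d) with h | h
        · rw [h]; simp
        · have : (1 : ℝ) ≤ ((N / d : ℕ) : ℝ) := by exact_mod_cast h
          nlinarith
      have hk0 : (0 : ℝ) ≤ (((N / d : ℕ) : ℝ) * ((N / d : ℕ) + 1) / 2) := by positivity
      have h1 : ((N / d : ℕ) : ℝ) * d ≤ N := by exact_mod_cast Nat.div_mul_le_self N d
      have h0 : (0 : ℝ) ≤ ((N / d : ℕ) : ℝ) * d := by positivity
      rw [abs_of_nonneg hk0, abs_of_pos (pow_pos hN' 2), div_le_div_iff₀ (pow_pos hN' 2) (pow_pos hd' 2), one_mul]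
      calc |((ArithmeticFunction.moebius d : ℤ) : ℝ)| * (((N / d : ℕ) : ℝ) * ((N / d : ℕ) + 1) / 2) * (d : ℝ) ^ 2
          ≤ 1 * ((N / d : ℕ) : ℝ) ^ 2 * (d : ℝ) ^ 2 := by gcongr
        _ = (((N / d : ℕ) : ℝ) * d) ^ 2 := by ring
        _ ≤ (N : ℝ) ^ 2 := by gcongr
  rw [tsum_div_const, moebius_tsum] at hT
  have e : (6 : ℝ) / Real.pi ^ 2 / 2 = 3 / Real.pi ^ 2 := by ring
  rw [e] at hT
  refine hT.congr fun N => ?_
  rw [totient_sum, Finset.sum_div]
  refine tsum_eq_sum fun d hd => ?_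
  rw [Finset.mem_Icc, not_and_or, not_le, not_le] at hd
  rcases hd with hd | hd
  · have : d = 0 := by omega
    rw [this]
    simp
  · rw [Nat.div_eq_of_lt hd]
    simp

/-! ## Counting -/

/-- the numbers of an interval of length `m` which are prime to `a` -/
theorem count_bound (a k m : ℕ) (ha : 1 ≤ a) :
    |(((Finset.Ico k (k + m)).filter a.Coprime).card : ℝ) - (a.totient : ℝ) / a * m| ≤ a := by
  have ha' : (0 : ℝ) < a := by exact_mod_cast ha
  have hper : ∀ q k : ℕ, ((Finset.Ico k (k + a * q)).filter a.Coprime).card = q * a.totient := by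
    intro q
    induction q with
    | zero => intro k; simp
    | succ q ih =>
      intro k
      have h1 : Finset.Ico k (k + a * (q + 1)) = Finset.Ico k (k + a) ∪ Finset.Ico (k + a) (k + a + a * q) := by
        rw [Finset.Ico_union_Ico_eq_Ico (by omega) (by omega)]
        congr 1
        ring
      rw [h1, Finset.filter_union, Finset.card_union_of_disjoint, ih, Nat.filter_coprime_Ico_eq_totient]
      · ring
      · refine Finset.disjoint_filter_filter ?_
        exact Finset.Ico_disjoint_Ico_consecutive k (k + a) _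
  have hm := Nat.div_add_mod m a
  have hr := Nat.mod_lt m (show 0 < a from ha)
  set q := m / a with hq
  set r := m % a with hrr
  have h1 : Finset.Ico k (k + m) = Finset.Ico k (k + a * q) ∪ Finset.Ico (k + a * q) (k + a * q + r) := by
    rw [Finset.Ico_union_Ico_eq_Ico (by omega) (by omega)]
    congr 1
    omega
  have h2 : ((Finset.Ico k (k + m)).filter a.Coprime).card =
      q * a.totient + ((Finset.Ico (k + a * q) (k + a * q + r)).filter a.Coprime).card := by
    rw [h1, Finset.filter_union, Finset.card_union_of_disjoint, hper]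
    refine Finset.disjoint_filter_filter ?_
    exact Finset.Ico_disjoint_Ico_consecutive _ _ _
  have h3 : ((Finset.Ico (k + a * q) (k + a * q + r)).filter a.Coprime).card ≤ r := by
    refine (Finset.card_filter_le _ _).trans ?_
    rw [Nat.card_Ico]
    omega
  set s := ((Finset.Ico (k + a * q) (k + a * q + r)).filter a.Coprime).card with hs
  have hmR : (m : ℝ) = a * q + r := by exact_mod_cast hm.symm
  have hφ : (a.totient : ℝ) ≤ a := by exact_mod_cast Nat.totient_le a
  have hφ0 : (0 : ℝ) ≤ (a.totient : ℝ) := by positivity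
  have hr' : (r : ℝ) ≤ a := by exact_mod_cast hr.le
  have hr0 : (0 : ℝ) ≤ r := by positivity
  have hs' : (s : ℝ) ≤ r := by exact_mod_cast h3
  have hs0 : (0 : ℝ) ≤ s := by positivity
  rw [h2, hmR]
  push_cast
  have e : (q : ℝ) * a.totient + s - (a.totient : ℝ) / a * (a * q + r) = s - (a.totient : ℝ) / a * r := by
    field_simp
    ring
  rw [e]
  have h4 : (a.totient : ℝ) / a ≤ 1 := (div_le_one ha').2 hφ
  have h5 : 0 ≤ (a.totient : ℝ) / a * r := by positivity
  have h6 : (a.totient : ℝ) / a * r ≤ r := by nlinarith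
  rw [abs_le]
  constructor <;> linarith

/-- the Farey fractions `≤ x / N` with the numerator `a` -/
theorem count_a (x : ℝ) (a N : ℕ) (ha : 1 ≤ a) (hax : (a : ℝ) ≤ x) (hN : x ≤ N) :
    |((((Finset.Icc 1 N).filter fun n : ℕ => a ≤ n ∧ a.Coprime n ∧ (a : ℝ) / (n : ℝ) ≤ x / N).card : ℕ) : ℝ)
      - (a.totient : ℝ) / a * (1 - a / x) * N| ≤ a + 1 := by
  have ha' : (1 : ℝ) ≤ a := by exact_mod_cast ha
  have hx : (0 : ℝ) < x := by linarith
  have hN' : (0 : ℝ) < N := by linarith
  set k := ⌈(a : ℝ) * N / x⌉₊ with hk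
  have hy0 : 0 < (a : ℝ) * N / x := by positivity
  have hkN : k ≤ N := by
    rw [hk, Nat.ceil_le, div_le_iff₀ hx]
    nlinarith
  have hk1 : 1 ≤ k := Nat.ceil_pos.2 hy0
  have hset : (Finset.Icc 1 N).filter (fun n : ℕ => a ≤ n ∧ a.Coprime n ∧ (a : ℝ) / (n : ℝ) ≤ x / N) =
      (Finset.Ico k (k + (N + 1 - k))).filter a.Coprime := by
    ext n
    rw [Finset.mem_filter, Finset.mem_filter, Finset.mem_Icc, Finset.mem_Ico]
    have hiff : 1 ≤ n → ((a : ℝ) / (n : ℝ) ≤ x / N ↔ k ≤ n) := by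
      intro hn
      have hn' : (0 : ℝ) < n := by exact_mod_cast hn
      rw [hk, Nat.ceil_le, div_le_div_iff₀ hn' hN', div_le_iff₀ hx]
      constructor <;> intro h <;> linarith
    constructor
    · rintro ⟨⟨h1, h2⟩, -, h3, h4⟩
      exact ⟨⟨(hiff h1).1 h4, by omega⟩, h3⟩
    · rintro ⟨⟨h1, h2⟩, h3⟩
      have h5 : 1 ≤ n := by omega
      refine ⟨⟨h5, by omega⟩, ?_, h3, (hiff h5).2 h1⟩
      have h6 : (a : ℝ) ≤ (a : ℝ) * N / x := by
        rw [le_div_iff₀ hx]
        nlinarith
      have h7 : (a : ℝ) * N / x ≤ n := Nat.ceil_le.1 h1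
      exact_mod_cast h6.trans h7
  rw [hset]
  have h1 := count_bound a k (N + 1 - k) ha
  have h2 : ((N + 1 - k : ℕ) : ℝ) = N + 1 - k := by
    rw [Nat.cast_sub (by omega)]
    push_cast
    ring
  rw [h2] at h1
  have h3 : (k : ℝ) < (a : ℝ) * N / x + 1 := Nat.ceil_lt_add_one hy0.le
  have h4 : (a : ℝ) * N / x ≤ k := Nat.le_ceil _
  have hφ : (a.totient : ℝ) / a ≤ 1 := (div_le_one (by linarith)).2 (by exact_mod_cast Nat.totient_le a)
  have hφ0 : 0 ≤ (a.totient : ℝ) / a := by positivity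
  have e : (a.totient : ℝ) / a * (1 - a / x) * N =
      (a.totient : ℝ) / a * (N + 1 - k) + (a.totient : ℝ) / a * (k - (a : ℝ) * N / x - 1) := by
    field_simp
    ring
  rw [e]
  set c := (((Finset.Ico k (k + (N + 1 - k))).filter a.Coprime).card : ℝ) with hc
  set f := (a.totient : ℝ) / a with hf
  have h5 : -1 ≤ f * (k - (a : ℝ) * N / x - 1) := by nlinarith
  have h6 : f * (k - (a : ℝ) * N / x - 1) ≤ 0 := by nlinarith
  rw [abs_le] at h1 ⊢
  constructor
  · linarith [h1.1, h1.2]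
  · linarith [h1.1, h1.2]

theorem cnt_eq (N : ℕ) (t : ℝ) : cnt N t =
    ∑ a ∈ Finset.Icc 1 N, ((Finset.Icc 1 N).filter fun n : ℕ => a ≤ n ∧ a.Coprime n ∧ (a : ℝ) / (n : ℝ) ≤ t).card := by
  classical
  unfold cnt
  rw [Finset.card_filter, Finset.sum_product]
  refine Finset.sum_congr rfl fun a _ => ?_
  rw [Finset.card_filter]

/-- the count for `t = x / N` -/
theorem cnt_small (x : ℝ) (hx : 0 < x) (N : ℕ) (hN : x ≤ N) : cnt N (x / N) =
    ∑ a ∈ Finset.Icc 1 ⌊x⌋₊, ((Finset.Icc 1 N).filter fun n : ℕ =>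
      a ≤ n ∧ a.Coprime n ∧ (a : ℝ) / (n : ℝ) ≤ x / N).card := by
  rw [cnt_eq]
  have hN' : (0 : ℝ) < N := by linarith
  have hfl : ⌊x⌋₊ ≤ N := by
    have := Nat.floor_le_of_le hN
    exact this
  symm
  apply Finset.sum_subset (Finset.Icc_subset_Icc le_rfl hfl)
  intro a ha ha2
  rw [Finset.mem_Icc] at ha ha2
  have h1 : ⌊x⌋₊ < a := by omega
  rw [Finset.card_eq_zero, Finset.filter_eq_empty_iff]
  rintro n hn ⟨-, -, h2⟩
  rw [Finset.mem_Icc] at hn
  have hn' : (0 : ℝ) < n := by exact_mod_cast (show 0 < n by omega)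
  have hnN : (n : ℝ) ≤ N := by exact_mod_cast hn.2
  rw [div_le_div_iff₀ hn' hN'] at h2
  have h3 : x < a := (Nat.floor_lt hx.le).1 h1
  nlinarith

theorem cnt_mono (N : ℕ) : Monotone (cnt N) := by
  classical
  intro s t hst
  unfold cnt
  refine Finset.card_le_card ?_
  intro q hq
  rw [Finset.mem_filter] at hq ⊢
  exact ⟨hq.1, hq.2.1, hq.2.2.1, hq.2.2.2.trans hst⟩

theorem E_meas (N : ℕ) : Measurable (E N) := by
  unfold E
  have h1 : Measurable fun t => (cnt N t : ℝ) := by
    have : Monotone fun t => (cnt N t : ℝ) := fun s t hst => by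
      show (cnt N s : ℝ) ≤ (cnt N t : ℝ)
      exact_mod_cast cnt_mono N hst
    exact this.measurable
  exact h1.sub (measurable_const.mul measurable_id)

/-- the bound for small arguments -/
theorem E_bound (x : ℝ) (hx : 0 < x) (N : ℕ) (hN : x ≤ N) : |E N (x / N) / N| ≤ 2 * x := by
  have hN' : (0 : ℝ) < N := by linarith
  have h1 : (cnt N (x / N) : ℝ) ≤ x * N := by
    rw [cnt_small x hx N hN]
    push_cast
    calc ∑ a ∈ Finset.Icc 1 ⌊x⌋₊, ((((Finset.Icc 1 N).filter fun n : ℕ =>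
          a ≤ n ∧ a.Coprime n ∧ (a : ℝ) / (n : ℝ) ≤ x / N).card : ℕ) : ℝ)
        ≤ ∑ a ∈ Finset.Icc 1 ⌊x⌋₊, (N : ℝ) := by
          refine Finset.sum_le_sum fun a _ => ?_
          have := Finset.card_filter_le (Finset.Icc 1 N) (fun n : ℕ =>
            a ≤ n ∧ a.Coprime n ∧ (a : ℝ) / (n : ℝ) ≤ x / N)
          rw [Nat.card_Icc, Nat.add_sub_cancel] at this
          exact_mod_cast this
      _ = ⌊x⌋₊ * (N : ℝ) := by
          rw [Finset.sum_const, Nat.card_Icc, Nat.add_sub_cancel, nsmul_eq_mul]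
      _ ≤ x * N := by
          have := Nat.floor_le hx.le
          gcongr
  have h2 : (∑ n ∈ Finset.Icc 1 N, (n.totient : ℝ)) ≤ (N : ℝ) * N := by
    calc (∑ n ∈ Finset.Icc 1 N, (n.totient : ℝ)) ≤ ∑ n ∈ Finset.Icc 1 N, (N : ℝ) := by
          refine Finset.sum_le_sum fun n hn => ?_
          exact_mod_cast (Nat.totient_le n).trans (Finset.mem_Icc.1 hn).2
      _ = N * (N : ℝ) := by
          rw [Finset.sum_const, Nat.card_Icc, Nat.add_sub_cancel, nsmul_eq_mul]
  have h20 : 0 ≤ (∑ n ∈ Finset.Icc 1 N, (n.totient : ℝ)) := Finset.sum_nonneg fun n _ => by positivity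
  have h10 : (0 : ℝ) ≤ cnt N (x / N) := by positivity
  rw [abs_div, abs_of_pos hN', div_le_iff₀ hN']
  unfold E
  have h3 : (∑ n ∈ Finset.Icc 1 N, (n.totient : ℝ)) * (x / N) ≤ x * N := by
    calc (∑ n ∈ Finset.Icc 1 N, (n.totient : ℝ)) * (x / N) ≤ (N : ℝ) * N * (x / N) := by gcongr
      _ = x * N := by field_simp
  have h4 : 0 ≤ (∑ n ∈ Finset.Icc 1 N, (n.totient : ℝ)) * (x / N) := by positivity
  rw [abs_le]
  constructor <;> nlinarith

/-- the pointwise limit -/
theorem E_lim (x : ℝ) (hx : 0 < x) : Tendsto (fun N : ℕ => E N (x / N) / N) atTop (𝓝 (F x)) := by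
  have h1 : Tendsto (fun N : ℕ => (cnt N (x / N) : ℝ) / N) atTop
      (𝓝 (∑ n ∈ Finset.Icc 1 ⌊x⌋₊, (n.totient : ℝ) / (n : ℝ) * (1 - (n : ℝ) / x))) := by
    have h2 : Tendsto (fun N : ℕ => ∑ a ∈ Finset.Icc 1 ⌊x⌋₊, ((((Finset.Icc 1 N).filter fun n : ℕ =>
          a ≤ n ∧ a.Coprime n ∧ (a : ℝ) / (n : ℝ) ≤ x / N).card : ℕ) : ℝ) / N) atTop
        (𝓝 (∑ n ∈ Finset.Icc 1 ⌊x⌋₊, (n.totient : ℝ) / (n : ℝ) * (1 - (n : ℝ) / x))) := by
      refine tendsto_finsetSum _ fun a ha => ?_
      rw [Finset.mem_Icc] at ha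
      have hax : (a : ℝ) ≤ x := (Nat.le_floor_iff hx.le).1 ha.2
      refine tend_of_le (C := a + 1) ?_
      filter_upwards [eventually_ge_atTop ⌈x⌉₊, eventually_ge_atTop 1] with N hN hN1
      have hN' : (0 : ℝ) < N := by exact_mod_cast hN1
      have h3 := count_a x a N ha.1 hax (Nat.ceil_le.1 hN)
      have e : ((((Finset.Icc 1 N).filter fun n : ℕ =>
          a ≤ n ∧ a.Coprime n ∧ (a : ℝ) / (n : ℝ) ≤ x / N).card : ℕ) : ℝ) / N -
          (a.totient : ℝ) / a * (1 - a / x) = (((((Finset.Icc 1 N).filter fun n : ℕ =>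
          a ≤ n ∧ a.Coprime n ∧ (a : ℝ) / (n : ℝ) ≤ x / N).card : ℕ) : ℝ) -
          (a.totient : ℝ) / a * (1 - a / x) * N) / N := by
        field_simp
      rw [e, abs_div, abs_of_pos hN']
      gcongr
    refine h2.congr' ?_
    filter_upwards [eventually_ge_atTop ⌈x⌉₊] with N hN
    rw [cnt_small x hx N (Nat.ceil_le.1 hN)]
    push_cast
    rw [Finset.sum_div]
  have h3 := h1.sub (totient_lim.mul_const x)
  refine h3.congr' ?_
  filter_upwards [eventually_ge_atTop 1] with N hN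
  have hN' : (0 : ℝ) < N := by exact_mod_cast hN
  unfold E
  field_simp

/-- JOB ZR -/
theorem t_ZR : J_ZR := by
  intro p X hp hX
  have hkey : Tendsto (fun N : ℕ => ∫ x in (0 : ℝ)..X, |E N (x / N) / N| ^ p) atTop
      (𝓝 (∫ x in (0 : ℝ)..X, |F x| ^ p)) := by
    refine intervalIntegral.tendsto_integral_filter_of_dominated_convergence (fun _ => (2 * X) ^ p) ?_ ?_ ?_ ?_
    · refine Eventually.of_forall fun N => ?_
      refine Measurable.aestronglyMeasurable ?_
      have h1 : Measurable fun x : ℝ => E N (x / N) / N :=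
        ((E_meas N).comp (measurable_id.div_const (N : ℝ))).div_const (N : ℝ)
      exact (measurable_norm.comp h1).pow_const p
    · filter_upwards [eventually_ge_atTop ⌈X⌉₊] with N hN
      refine Eventually.of_forall fun x hx => ?_
      rw [uIoc_of_le hX.le] at hx
      have h1 := E_bound x hx.1 N (hx.2.trans (Nat.ceil_le.1 hN))
      rw [Real.norm_eq_abs, abs_of_nonneg (Real.rpow_nonneg (abs_nonneg _) _)]
      exact Real.rpow_le_rpow (abs_nonneg _) (h1.trans (by linarith [hx.2])) (by linarith)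
    · exact intervalIntegrable_const
    · refine Eventually.of_forall fun x hx => ?_
      rw [uIoc_of_le hX.le] at hx
      have h1 := (E_lim x hx.1).abs
      exact h1.rpow_const (Or.inr (by linarith))
  refine hkey.congr' ?_
  filter_upwards [eventually_ge_atTop 1] with N hN
  have hN' : (0 : ℝ) < N := by exact_mod_cast hN
  have h1 := intervalIntegral.integral_comp_div (a := 0) (b := X) (c := (N : ℝ)) (fun t => |E N t| ^ p) hN'.ne'
  rw [zero_div, smul_eq_mul] at h1
  have h2 : (∫ t in (0 : ℝ)..(X / N), |E N t| ^ p) = (∫ x in (0 : ℝ)..X, |E N (x / N)| ^ p) / N := by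
    rw [h1, mul_div_cancel_left₀ _ hN'.ne']
  have h3 : (N : ℝ) ^ p = N * (N : ℝ) ^ (p - 1) := by
    rw [Real.rpow_sub_one hN'.ne']
    field_simp
  rw [h2, div_div, ← h3, ← intervalIntegral.integral_div]
  refine intervalIntegral.integral_congr fun x _ => ?_
  show |E N (x / N) / N| ^ p = |E N (x / N)| ^ p / (N : ℝ) ^ p
  rw [abs_div, abs_of_pos hN', Real.div_rpow (abs_nonneg _) hN'.le]

end Pool.Agent.Q124.FA
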