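import Pool.Agent.Q124.FA.W2a
import Pool.Agent.TH223.AP.A4

/-!
# Project FA, job W2: the mean square of `h` from that of `M`
-/

set_option autoImplicit false

open MeasureTheory Filter Topology Set

namespace Pool.Agent.Q124.FA

open Pool.Agent.TH223.AP
open Pool.Agent.H295R2 (JJ ww ee ee_mul GR)
open Pool.Agent.Q120.FA (Mr hh H2 J_W2 NTZ zs)
open Pool.Agent.W120.WM (NT)

theorem fv_ft : fv = ft := rfl

/-! ## Means of trigonometric polynomials -/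

/-- `∑ b(ρ) e^((ρ-1/2)v)` -/
noncomputable def PZ (Z : Finset ℂ) (b : ℂ → ℂ) (v : ℝ) : ℂ := ∑ ρ ∈ Z, b ρ * ee ρ v

theorem ee_cont (ρ : ℂ) : Continuous (ee ρ) := by
  unfold ee
  fun_prop

theorem PZ_cont (Z : Finset ℂ) (b : ℂ → ℂ) : Continuous (PZ Z b) := by
  unfold PZ
  exact continuous_finsetSum _ fun ρ _ => continuous_const.mul (ee_cont ρ)

theorem PZ_mean (Z : Finset ℂ) (hZ : ∀ ρ ∈ Z, ρ.re = 1 / 2) (b : ℂ → ℂ) :
    Tendsto (mn fun v => ‖PZ Z b v‖ ^ 2) atTop (𝓝 (∑ ρ ∈ Z, ‖b ρ‖ ^ 2)) := by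
  classical
  have h2 : Tendsto (fun V : ℝ => ∑ ρ ∈ Z, ∑ ρ' ∈ Z, b ρ * (starRingEnd ℂ) (b ρ') * (GR (ρ - ρ') V / V))
      atTop (𝓝 (∑ ρ ∈ Z, ∑ ρ' ∈ Z, b ρ * (starRingEnd ℂ) (b ρ') * (if ρ - ρ' = 0 then 1 else 0))) := by
    refine tendsto_finsetSum _ fun ρ hρ => tendsto_finsetSum _ fun ρ' hρ' => ?_
    refine (GR_lim ?_).const_mul _
    rw [Complex.sub_re, hZ ρ hρ, hZ ρ' hρ', sub_self]
  have h3 := (Complex.continuous_re.tendsto _).comp h2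
  have hsq : ∀ z : ℂ, (starRingEnd ℂ) z * z = ((‖z‖ ^ 2 : ℝ) : ℂ) := by
    intro z
    rw [← Complex.normSq_eq_conj_mul_self, Complex.normSq_eq_norm_sq]
  have e2 : (∑ ρ ∈ Z, ∑ ρ' ∈ Z, b ρ * (starRingEnd ℂ) (b ρ') * (if ρ - ρ' = 0 then 1 else 0)).re =
      ∑ ρ ∈ Z, ‖b ρ‖ ^ 2 := by
    rw [Complex.re_sum]
    refine Finset.sum_congr rfl fun ρ hρ => ?_
    have e3 : ∑ ρ' ∈ Z, b ρ * (starRingEnd ℂ) (b ρ') * (if ρ - ρ' = 0 then 1 else 0) =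
        b ρ * (starRingEnd ℂ) (b ρ) := by
      rw [Finset.sum_eq_single ρ]
      · simp
      · intro ρ' _ hne
        rw [if_neg (sub_ne_zero.2 (Ne.symm hne)), mul_zero]
      · exact fun h => absurd hρ h
    rw [e3, mul_comm, hsq, Complex.ofReal_re]
  rw [e2] at h3
  refine h3.congr' ?_
  filter_upwards [eventually_gt_atTop (0:ℝ)] with V hV
  have hpt : ∀ s : ℝ, ‖PZ Z b s‖ ^ 2 =
      (∑ ρ ∈ Z, ∑ ρ' ∈ Z, b ρ * (starRingEnd ℂ) (b ρ') * Complex.exp ((ρ - ρ') * s)).re := by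
    intro s
    have h1 : ((‖PZ Z b s‖ ^ 2 : ℝ) : ℂ) =
        ∑ ρ ∈ Z, ∑ ρ' ∈ Z, b ρ * (starRingEnd ℂ) (b ρ') * Complex.exp ((ρ - ρ') * s) := by
      rw [← hsq, mul_comm]
      unfold PZ
      rw [map_sum, Finset.sum_mul_sum]
      refine Finset.sum_congr rfl fun ρ _ => Finset.sum_congr rfl fun ρ' hρ' => ?_
      rw [map_mul, ← ee_mul (ρ := ρ) (hZ ρ' hρ') s]
      ring
    rw [← h1, Complex.ofReal_re]
  have i2 : IntegrableOn (fun s : ℝ => ∑ ρ ∈ Z, ∑ ρ' ∈ Z, b ρ * (starRingEnd ℂ) (b ρ') * Complex.exp ((ρ - ρ') * s))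
      (Ioc 0 V) := by
    refine Continuous.integrableOn_Ioc ?_
    fun_prop
  have i3 : ∀ ρ ∈ Z, ∀ ρ' ∈ Z, Integrable (fun s : ℝ => b ρ * (starRingEnd ℂ) (b ρ') * Complex.exp ((ρ - ρ') * s))
      (volume.restrict (Ioc 0 V)) := by
    intro ρ _ ρ' _
    refine Continuous.integrableOn_Ioc ?_
    fun_prop
  have e7 : ∫ s in Ioc 0 V, ‖PZ Z b s‖ ^ 2 =
      (∑ ρ ∈ Z, ∑ ρ' ∈ Z, b ρ * (starRingEnd ℂ) (b ρ') * GR (ρ - ρ') V).re := by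
    rw [integral_congr_ae (Eventually.of_forall fun s => hpt s)]
    have := integral_re i2
    simp only [RCLike.re_eq_complex_re] at this
    rw [this, integral_finsetSum _ fun ρ hρ => integrable_finsetSum _ fun ρ' hρ' => i3 ρ hρ ρ' hρ']
    congr 1
    refine Finset.sum_congr rfl fun ρ hρ => ?_
    rw [integral_finsetSum _ fun ρ' hρ' => i3 ρ hρ ρ' hρ']
    refine Finset.sum_congr rfl fun ρ' _ => ?_
    rw [integral_const_mul]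
    rfl
  unfold mn
  simp only [Function.comp]
  rw [intervalIntegral.integral_of_le hV.le, e7]
  have h7 : (∑ ρ ∈ Z, ∑ ρ' ∈ Z, b ρ * (starRingEnd ℂ) (b ρ') * (GR (ρ - ρ') V / V)) =
      (∑ ρ ∈ Z, ∑ ρ' ∈ Z, b ρ * (starRingEnd ℂ) (b ρ') * GR (ρ - ρ') V) / ((V : ℝ) : ℂ) := by
    rw [Finset.sum_div]
    refine Finset.sum_congr rfl fun ρ _ => ?_
    rw [Finset.sum_div]
    exact Finset.sum_congr rfl fun ρ' _ => by ring
  rw [h7, Complex.div_ofReal_re]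

/-! ## The operator on the exponentials -/

/-- finite sums of `ζ(1+ρ)` -/
noncomputable def dz (ρ : ℂ) (N : ℕ) : ℂ := ∑ m ∈ Finset.Icc 1 N, 1 / (m : ℂ) ^ (1 + ρ)

theorem dz_lim {ρ : ℂ} (h : ρ.re = 1 / 2) : Tendsto (dz ρ) atTop (𝓝 (riemannZeta (1 + ρ))) := by
  have h1 : 1 < (1 + ρ).re := by rw [Complex.add_re, Complex.one_re, h]; norm_num
  have h2 := (Complex.summable_one_div_nat_cpow.2 h1).hasSum
  rw [← zeta_eq_tsum_one_div_nat_cpow h1] at h2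
  have h3 := (tendsto_add_atTop_iff_nat 1).2 h2.tendsto_sum_nat
  refine h3.congr fun N => ?_
  unfold dz
  symm
  refine Finset.sum_subset (fun m hm => ?_) fun m hm hm' => ?_
  · rw [Finset.mem_Icc] at hm
    rw [Finset.mem_range]
    omega
  · rw [Finset.mem_range] at hm
    rw [Finset.mem_Icc] at hm'
    have h0 : m = 0 := by omega
    subst h0
    have h4 : (1 : ℂ) + ρ ≠ 0 := by
      intro h5
      rw [h5, Complex.zero_re] at h1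
      linarith
    simp [Complex.zero_cpow h4]

theorem cf_ee {m : ℕ} (hm : 1 ≤ m) (ρ : ℂ) (v : ℝ) :
    ((cf m : ℝ) : ℂ) * ee ρ (v - Real.log m) = ee ρ v * (1 / (m : ℂ) ^ (1 + ρ)) := by
  have hm0 : (m : ℂ) ≠ 0 := by exact_mod_cast (by omega : m ≠ 0)
  have hL : Complex.log (m : ℂ) = ((Real.log m : ℝ) : ℂ) := by
    rw [Complex.ofReal_log (Nat.cast_nonneg m)]
    rfl
  rw [cf_exp hm, Complex.cpow_def_of_ne_zero hm0, hL, one_div, ← Complex.exp_neg]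
  unfold ee
  rw [Complex.ofReal_exp, ← Complex.exp_add, ← Complex.exp_add]
  congr 1
  push_cast
  ring

theorem TT_PZ (Z : Finset ℂ) (b : ℂ → ℂ) (v : ℝ) : TT (fun _ => 1) (PZ Z b) v =
    ∑ ρ ∈ Z, b ρ * ee ρ v * dz ρ ⌊Real.exp v⌋₊ := by
  unfold TT PZ dz
  have h1 : ∀ m ∈ Finset.Icc 1 ⌊Real.exp v⌋₊, ((1 * cf m : ℝ) : ℂ) * ∑ ρ ∈ Z, b ρ * ee ρ (v - Real.log m) =
      ∑ ρ ∈ Z, b ρ * ee ρ v * (1 / (m : ℂ) ^ (1 + ρ)) := by
    intro m hm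
    rw [one_mul, Finset.mul_sum]
    refine Finset.sum_congr rfl fun ρ _ => ?_
    have := cf_ee (Finset.mem_Icc.1 hm).1 ρ v
    calc ((cf m : ℝ) : ℂ) * (b ρ * ee ρ (v - Real.log m)) = b ρ * (((cf m : ℝ) : ℂ) * ee ρ (v - Real.log m)) := by ring
      _ = b ρ * ee ρ v * (1 / (m : ℂ) ^ (1 + ρ)) := by rw [this]; ring
  rw [Finset.sum_congr rfl h1, Finset.sum_comm]
  refine Finset.sum_congr rfl fun ρ _ => ?_
  rw [Finset.mul_sum]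

theorem norm_ee {ρ : ℂ} (h : ρ.re = 1 / 2) (v : ℝ) : ‖ee ρ v‖ = 1 := by
  unfold ee
  rw [Complex.norm_exp]
  have : ((ρ - 1 / 2) * (v : ℂ)).re = 0 := by
    rw [Complex.re_mul_ofReal, Complex.sub_re, h]
    norm_num
  rw [this, Real.exp_zero]

/-- the tail -/
noncomputable def tl (Z : Finset ℂ) (b : ℂ → ℂ) (v : ℝ) : ℝ :=
  ∑ ρ ∈ Z, ‖b ρ‖ * ‖dz ρ ⌊Real.exp v⌋₊ - riemannZeta (1 + ρ)‖

theorem tl_meas (Z : Finset ℂ) (b : ℂ → ℂ) : Measurable (tl Z b) := by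
  unfold tl
  refine Finset.measurable_fun_sum Z fun ρ _ => ?_
  have h : Measurable fun v : ℝ => dz ρ ⌊Real.exp v⌋₊ :=
    (measurable_from_top (f := dz ρ)).comp (Nat.measurable_floor.comp Real.measurable_exp)
  exact measurable_const.mul (h.sub_const _).norm

theorem tl_lim (Z : Finset ℂ) (hZ : ∀ ρ ∈ Z, ρ.re = 1 / 2) (b : ℂ → ℂ) : Tendsto (tl Z b) atTop (𝓝 0) := by
  have h1 : Tendsto (tl Z b) atTop (𝓝 (∑ ρ ∈ Z, ‖b ρ‖ * ‖riemannZeta (1 + ρ) - riemannZeta (1 + ρ)‖)) := by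
    unfold tl
    refine tendsto_finsetSum _ fun ρ hρ => ?_
    have h2 : Tendsto (fun v : ℝ => dz ρ ⌊Real.exp v⌋₊) atTop (𝓝 (riemannZeta (1 + ρ))) :=
      (dz_lim (hZ ρ hρ)).comp (tendsto_nat_floor_atTop.comp Real.tendsto_exp_atTop)
    exact ((h2.sub_const _).norm).const_mul _
  simpa using h1

theorem tl_nonneg (Z : Finset ℂ) (b : ℂ → ℂ) (v : ℝ) : 0 ≤ tl Z b v :=
  Finset.sum_nonneg fun ρ _ => by positivity

theorem dz_bdd {ρ : ℂ} (h : ρ.re = 1 / 2) : ∃ B : ℝ, ∀ N, ‖dz ρ N - riemannZeta (1 + ρ)‖ ≤ B := by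
  have h1 : Tendsto (fun N => ‖dz ρ N - riemannZeta (1 + ρ)‖) atTop (𝓝 ‖riemannZeta (1 + ρ) - riemannZeta (1 + ρ)‖) :=
    ((dz_lim h).sub_const _).norm
  obtain ⟨B, hB⟩ := h1.bddAbove_range
  exact ⟨B, fun N => hB ⟨N, rfl⟩⟩

theorem tl_LB (Z : Finset ℂ) (hZ : ∀ ρ ∈ Z, ρ.re = 1 / 2) (b : ℂ → ℂ) : LB (tl Z b) := by
  refine ⟨tl_meas Z b, fun V => ?_⟩
  have h : ∀ ρ ∈ Z, ∃ B : ℝ, ∀ N, ‖dz ρ N - riemannZeta (1 + ρ)‖ ≤ B := fun ρ hρ => dz_bdd (hZ ρ hρ)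
  choose! B hB using h
  refine ⟨∑ ρ ∈ Z, ‖b ρ‖ * B ρ, fun v _ => ?_⟩
  rw [abs_of_nonneg (tl_nonneg Z b v)]
  unfold tl
  exact Finset.sum_le_sum fun ρ hρ => mul_le_mul_of_nonneg_left (hB ρ hρ _) (norm_nonneg _)

/-- Cesaro means -/
theorem mn_zero {τ : ℝ → ℝ} (hτ : LB τ) (hl : Tendsto τ atTop (𝓝 0)) :
    Tendsto (mn fun v => τ v ^ 2) atTop (𝓝 0) := by
  rw [Metric.tendsto_nhds]
  intro ε hε
  have h1 : ∀ᶠ v in atTop, τ v ^ 2 ≤ ε / 4 := by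
    have h2 : Tendsto (fun v => τ v ^ 2) atTop (𝓝 (0 ^ 2)) := hl.pow 2
    have h3 := h2.eventually (gt_mem_nhds (show (0 : ℝ) ^ 2 < ε / 4 by rw [zero_pow two_ne_zero]; positivity))
    exact h3.mono fun v hv => hv.le
  obtain ⟨V0, hV0⟩ := eventually_atTop.1 h1
  obtain ⟨V1, hV1⟩ : ∃ V1 : ℝ, V1 = max V0 1 := ⟨_, rfl⟩
  have hV1p : 0 < V1 := by rw [hV1]; exact lt_of_lt_of_le one_pos (le_max_right _ _)
  obtain ⟨A, hA⟩ : ∃ A : ℝ, A = ∫ v in (0 : ℝ)..V1, τ v ^ 2 := ⟨_, rfl⟩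
  have hA0 : 0 ≤ A := by
    rw [hA]
    exact intervalIntegral.integral_nonneg hV1p.le fun v _ => by positivity
  filter_upwards [eventually_ge_atTop V1, eventually_gt_atTop (4 * A / ε)] with V hV hVA
  have hVp : 0 < V := lt_of_lt_of_le hV1p hV
  have i1 : IntervalIntegrable (fun v => τ v ^ 2) volume 0 V1 := hτ.sq.ii hV1p.le
  have i2 : IntervalIntegrable (fun v => τ v ^ 2) volume V1 V :=
    (hτ.sq.ii hVp.le).mono_set (by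
      rw [uIcc_of_le hV, uIcc_of_le hVp.le]
      exact Icc_subset_Icc hV1p.le le_rfl)
  have hsplit : ∫ v in (0 : ℝ)..V, τ v ^ 2 = A + ∫ v in V1..V, τ v ^ 2 := by
    rw [hA]
    exact (intervalIntegral.integral_add_adjacent_intervals i1 i2).symm
  have h3 : ∫ v in V1..V, τ v ^ 2 ≤ ∫ _v in V1..V, ε / 4 := by
    refine intervalIntegral.integral_mono_on hV i2 (by simp) fun v hv => hV0 v ?_
    exact (le_max_left _ _).trans (hV1 ▸ hv.1)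
  rw [intervalIntegral.integral_const, smul_eq_mul] at h3
  have h4 : 0 ≤ ∫ v in (0 : ℝ)..V, τ v ^ 2 := intervalIntegral.integral_nonneg hVp.le fun v _ => by positivity
  rw [Real.dist_eq, sub_zero]
  unfold mn
  rw [abs_of_nonneg (div_nonneg h4 hVp.le), div_lt_iff₀ hVp, hsplit]
  rw [div_lt_iff₀ hε] at hVA
  nlinarith


/-! ## The two halves -/

theorem mn_bound (a : ℕ → ℝ) (ha : ∀ m, |a m| ≤ 1) (g : ℝ → ℂ) (hg : LB fun v => ‖g v‖ ^ 2) {V : ℝ} (hV : 0 < V)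
    {F T : ℝ → ℝ} (hF : LB F) (hT : LB T) {α β : ℝ} (hα : 0 ≤ α)
    (hle : ∀ v ∈ Ioc 0 V, F v ≤ α * ‖TT a g v‖ ^ 2 + β * T v) :
    mn F V ≤ α * (cc ^ 2 * mn (fun v => ‖g v‖ ^ 2) V) + β * mn T V := by
  obtain ⟨Φ, h1, h2, h3⟩ := TT_major a ha g hg hV.le
  have hiF : IntegrableOn F (Ioc 0 V) := (intervalIntegrable_iff_integrableOn_Ioc_of_le hV.le).1 (hF.ii hV.le)
  have hiT : IntegrableOn T (Ioc 0 V) := (intervalIntegrable_iff_integrableOn_Ioc_of_le hV.le).1 (hT.ii hV.le)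
  have h4 : ∫ v in Ioc 0 V, F v ≤ ∫ v in Ioc 0 V, (α * Φ v + β * T v) := by
    refine setIntegral_mono_on hiF ((h1.const_mul _).add (hiT.const_mul _)) measurableSet_Ioc fun v hv => ?_
    have := mul_le_mul_of_nonneg_left (h2 v hv) hα
    linarith [hle v hv]
  rw [integral_add (h1.const_mul _) (hiT.const_mul _), integral_const_mul, integral_const_mul] at h4
  unfold mn
  rw [intervalIntegral.integral_of_le hV.le, intervalIntegral.integral_of_le hV.le,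
    intervalIntegral.integral_of_le hV.le]
  have h5 := mul_le_mul_of_nonneg_left h3 hα
  have h6 : α * (cc ^ 2 * ((∫ v in Ioc 0 V, ‖g v‖ ^ 2) / V)) + β * ((∫ v in Ioc 0 V, T v) / V) =
      (α * (cc ^ 2 * ∫ v in Ioc 0 V, ‖g v‖ ^ 2) + β * ∫ v in Ioc 0 V, T v) / V := by ring
  rw [h6]
  exact div_le_div_of_nonneg_right (by linarith) hV.le

theorem nsq (x : ℝ) : ‖((x : ℝ) : ℂ)‖ ^ 2 = x ^ 2 := by
  rw [Complex.norm_real, Real.norm_eq_abs, sq_abs]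

theorem not_zc (h : ¬ Pool.Agent.Q120.FA.ZC) : Tendsto (mn fun v => kt v ^ 2) atTop atTop := by
  rw [tendsto_atTop]
  intro b
  have h1 : ∀ᶠ V : ℝ in atTop, cc ^ 2 * b < mn (fun v => ft v ^ 2) V := by
    by_contra hcon
    rw [not_eventually] at hcon
    exact h (ZC_of_freq (C := cc ^ 2 * b) (hcon.mono fun V hV => not_lt.1 hV))
  filter_upwards [h1, eventually_gt_atTop (0:ℝ)] with V h2 hV
  have hk : LB fun v => ‖((kt v : ℝ) : ℂ)‖ ^ 2 := by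
    simp only [nsq]
    exact kt_LB.sq
  have h3 := mn_bound (fun m => ((ArithmeticFunction.moebius m : ℤ) : ℝ)) moebius_le (fun v => ((kt v : ℝ) : ℂ)) hk hV
    (F := fun v => ft v ^ 2) (T := fun _ => 0) ft_LB.sq (LB.of_cont continuous_const) (α := 1) (β := 0) zero_le_one
    (fun v _ => by
      rw [← fv_eq, nsq, fv_ft]
      linarith)
  simp only [nsq, one_mul, zero_mul, add_zero] at h3
  have h4 : cc ^ 2 * b < cc ^ 2 * mn (fun v => kt v ^ 2) V := lt_of_lt_of_le h2 h3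
  exact (lt_of_mul_lt_mul_left h4 (by positivity)).le

theorem TT_sub (a : ℕ → ℝ) (g h : ℝ → ℂ) (v : ℝ) : TT a (fun v => g v - h v) v = TT a g v - TT a h v := by
  unfold TT
  rw [← Finset.sum_sub_distrib]
  exact Finset.sum_congr rfl fun m _ => by ring

/-- the coefficients `ζ(1+ρ)/(ρ ζ'(ρ))` -/
noncomputable def bz (ρ : ℂ) : ℂ := ww ρ * riemannZeta (1 + ρ)

theorem D_le (Z : Finset ℂ) (hZ : ∀ ρ ∈ Z, ρ.re = 1 / 2) (v : ℝ) :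
    ‖((kt v : ℝ) : ℂ) - PZ Z bz v‖ ^ 2 ≤
      2 * ‖TT (fun _ => 1) (fun v => ((ft v : ℝ) : ℂ) - PZ Z ww v) v‖ ^ 2 + 2 * tl Z ww v ^ 2 := by
  have h1 : ((kt v : ℝ) : ℂ) - PZ Z bz v =
      TT (fun _ => 1) (fun v => ((ft v : ℝ) : ℂ) - PZ Z ww v) v +
      (TT (fun _ => 1) (PZ Z ww) v - PZ Z bz v) := by
    have h2 := TT_sub (fun _ => 1) (fun v => ((ft v : ℝ) : ℂ)) (PZ Z ww) v
    have h3 := kt_eq v
    rw [fv_ft] at h3
    rw [h2, h3]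
    ring
  have h2 : ‖TT (fun _ => 1) (PZ Z ww) v - PZ Z bz v‖ ≤ tl Z ww v := by
    rw [TT_PZ]
    unfold PZ tl bz
    rw [← Finset.sum_sub_distrib]
    refine (norm_sum_le _ _).trans (Finset.sum_le_sum fun ρ hρ => ?_)
    have h3 : ww ρ * ee ρ v * dz ρ ⌊Real.exp v⌋₊ - ww ρ * riemannZeta (1 + ρ) * ee ρ v =
        ww ρ * ee ρ v * (dz ρ ⌊Real.exp v⌋₊ - riemannZeta (1 + ρ)) := by ring
    rw [h3, norm_mul, norm_mul, norm_ee (hZ ρ hρ), mul_one]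
  rw [h1]
  obtain ⟨A, hA⟩ : ∃ A : ℂ, A = TT (fun _ => 1) (fun v => ((ft v : ℝ) : ℂ) - PZ Z ww v) v := ⟨_, rfl⟩
  obtain ⟨B, hB⟩ : ∃ B : ℂ, B = TT (fun _ => 1) (PZ Z ww) v - PZ Z bz v := ⟨_, rfl⟩
  rw [← hA, ← hB]
  rw [← hB] at h2
  have h4 := norm_add_le A B
  have h5 := norm_nonneg A
  have h6 := norm_nonneg B
  have h7 := norm_nonneg (A + B)
  have h8 : ‖A + B‖ ^ 2 ≤ (‖A‖ + ‖B‖) ^ 2 := pow_le_pow_left₀ h7 h4 2
  have h9 : ‖B‖ ^ 2 ≤ tl Z ww v ^ 2 := pow_le_pow_left₀ h6 h2 2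
  nlinarith [sq_nonneg (‖A‖ - ‖B‖)]

theorem sq_diff {a b d δ : ℝ} (ha : 0 ≤ a) (hb : 0 ≤ b) (hδ : 0 < δ) (h : |a - b| ≤ d) :
    |a ^ 2 - b ^ 2| ≤ (1 + 1 / δ) * d ^ 2 + δ * b ^ 2 := by
  have hd : 0 ≤ d := (abs_nonneg _).trans h
  have h1 : |a ^ 2 - b ^ 2| = |a - b| * (a + b) := by
    rw [show a ^ 2 - b ^ 2 = (a - b) * (a + b) by ring, abs_mul, abs_of_nonneg (add_nonneg ha hb)]
  have h2 : a ≤ b + d := by linarith [(abs_le.1 h).2]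
  have h3 : |a - b| * (a + b) ≤ d * (2 * b + d) := mul_le_mul h (by linarith) (by linarith) hd
  have h4 : (1 + 1 / δ) * d ^ 2 + δ * b ^ 2 - d * (2 * b + d) = (d - δ * b) ^ 2 / δ := by
    field_simp
    ring
  have h5 : 0 ≤ (d - δ * b) ^ 2 / δ := by positivity
  linarith

theorem norm_zeta_le {ρ : ℂ} (h : ρ.re = 1 / 2) : ‖riemannZeta (1 + ρ)‖ ≤ cc := by
  refine le_of_tendsto (dz_lim h).norm (Eventually.of_forall fun N => ?_)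
  unfold dz
  refine (norm_sum_le _ _).trans ?_
  refine le_trans (le_of_eq ?_) (sum_cf_le (Finset.Icc 1 N))
  refine Finset.sum_congr rfl fun m hm => ?_
  have h1 := congrArg norm (cf_ee (Finset.mem_Icc.1 hm).1 ρ 0)
  rw [norm_mul, norm_mul, norm_ee h, norm_ee h, mul_one, one_mul, Complex.norm_real, Real.norm_eq_abs,
    abs_of_nonneg (cf_nonneg m)] at h1
  exact h1.symm

theorem bz_sq (ρ : ℂ) : ‖bz ρ‖ ^ 2 = ‖riemannZeta (1 + ρ)‖ ^ 2 / ‖ρ * deriv riemannZeta ρ‖ ^ 2 := by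
  unfold bz
  rw [norm_mul, mul_pow, ww_sq]
  ring

theorem zs_nonneg : 0 ≤ zs := by
  unfold zs
  exact tsum_nonneg fun ρ => by positivity

theorem zs_hasSum (hZ : Pool.Agent.W120.WM.ZC) :
    HasSum (fun ρ : NT => ‖bz (ρ : ℂ)‖ ^ 2) zs := by
  have h1 : Summable (fun ρ : NT => ‖bz (ρ : ℂ)‖ ^ 2) := by
    refine Summable.of_nonneg_of_le (fun ρ => by positivity) (fun ρ => ?_) (hZ.2.mul_left (cc ^ 2))
    rw [bz_sq, div_eq_mul_one_div]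
    have h2 := norm_zeta_le (hZ.1 ρ.1 ρ.2).1
    exact mul_le_mul_of_nonneg_right (pow_le_pow_left₀ (norm_nonneg _) h2 2) (by positivity)
  have h2 : zs = ∑' ρ : NT, ‖bz (ρ : ℂ)‖ ^ 2 := by
    unfold zs
    exact tsum_congr fun ρ => (bz_sq _).symm
  rw [h2]
  exact h1.hasSum

theorem of_zc (hZ : Pool.Agent.W120.WM.ZC) : Tendsto (mn fun v => kt v ^ 2) atTop (𝓝 zs) := by
  classical
  rw [Metric.tendsto_nhds]
  intro ε hε
  have hz0 := zs_nonneg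
  obtain ⟨δ, hδ⟩ : ∃ δ : ℝ, δ = ε / (8 * (zs + 1)) := ⟨_, rfl⟩
  have hδ0 : 0 < δ := by rw [hδ]; positivity
  have hcc := cc_pos
  obtain ⟨η, hη⟩ : ∃ η : ℝ, η = ε / (8 * ((1 + 1 / δ) * (2 * cc ^ 2))) := ⟨_, rfl⟩
  have hη0 : 0 < η := by rw [hη]; positivity
  obtain ⟨u, hu1, hu2⟩ := ((Metric.tendsto_nhds.1 hZ.2.hasSum η hη0).and
    (Metric.tendsto_nhds.1 (zs_hasSum hZ) (min 1 (ε / 8)) (by positivity))).exists
  obtain ⟨Z, hZdef⟩ : ∃ Z : Finset ℂ, Z = u.map (Function.Embedding.subtype _) := ⟨_, rfl⟩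
  have hZN : ∀ ρ ∈ Z, ρ ∈ NT := by
    intro ρ hρ
    rw [hZdef, Finset.mem_map] at hρ
    obtain ⟨ρ', -, rfl⟩ := hρ
    exact ρ'.2
  have hre : ∀ ρ ∈ Z, ρ.re = 1 / 2 := fun ρ hρ => (hZ.1 ρ (hZN ρ hρ)).1
  have hs1 : ∑ ρ ∈ Z, 1 / ‖ρ * deriv riemannZeta ρ‖ ^ 2 =
      ∑ ρ ∈ u, 1 / ‖(ρ : ℂ) * deriv riemannZeta ρ‖ ^ 2 := by
    rw [hZdef, Finset.sum_map]
    rfl
  have hs2 : ∑ ρ ∈ Z, ‖bz ρ‖ ^ 2 = ∑ ρ ∈ u, ‖bz (ρ : ℂ)‖ ^ 2 := by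
    rw [hZdef, Finset.sum_map]
    rfl
  have hτ : SS - ∑ ρ ∈ Z, 1 / ‖ρ * deriv riemannZeta ρ‖ ^ 2 < η := by
    rw [hs1]
    rw [Real.dist_eq, abs_lt] at hu1
    have h4 := hu1.1
    unfold SS
    linarith
  rw [← hs2, Real.dist_eq, lt_min_iff] at hu2
  obtain ⟨hu2, hu3⟩ := hu2
  have hl1 := dist_lim' hZ Z hZN
  have hl2 := PZ_mean Z hre bz
  have hl3 := mn_zero (tl_LB Z hre ww) (tl_lim Z hre ww)
  have hl1' : Tendsto (mn fun v => ‖((ft v : ℝ) : ℂ) - PZ Z ww v‖ ^ 2) atTop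
      (𝓝 (SS - ∑ ρ ∈ Z, 1 / ‖ρ * deriv riemannZeta ρ‖ ^ 2)) := hl1
  have hl4 := (((hl1'.const_mul (cc ^ 2)).const_mul 2).add (hl3.const_mul 2)).const_mul (1 + 1 / δ) |>.add (hl2.const_mul δ)
  have hL : (1 + 1 / δ) * (2 * (cc ^ 2 * (SS - ∑ ρ ∈ Z, 1 / ‖ρ * deriv riemannZeta ρ‖ ^ 2)) + 2 * 0) +
      δ * ∑ ρ ∈ Z, ‖bz ρ‖ ^ 2 < ε / 2 := by
    have h1 : (1 + 1 / δ) * (2 * (cc ^ 2 * (SS - ∑ ρ ∈ Z, 1 / ‖ρ * deriv riemannZeta ρ‖ ^ 2)) + 2 * 0) ≤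
        (1 + 1 / δ) * (2 * cc ^ 2) * η := by
      have h2 : (1 + 1 / δ) * (2 * (cc ^ 2 * (SS - ∑ ρ ∈ Z, 1 / ‖ρ * deriv riemannZeta ρ‖ ^ 2)) + 2 * 0) =
          (1 + 1 / δ) * (2 * cc ^ 2) * (SS - ∑ ρ ∈ Z, 1 / ‖ρ * deriv riemannZeta ρ‖ ^ 2) := by ring
      rw [h2]
      exact mul_le_mul_of_nonneg_left hτ.le (by positivity)
    have h2 : (1 + 1 / δ) * (2 * cc ^ 2) * η = ε / 8 := by
      rw [hη]
      field_simp
    have h3 : δ * ∑ ρ ∈ Z, ‖bz ρ‖ ^ 2 ≤ ε / 8 := by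
      have h4 : ∑ ρ ∈ Z, ‖bz ρ‖ ^ 2 ≤ zs + 1 := by linarith [(abs_lt.1 hu2).2]
      have h5 : δ * (zs + 1) = ε / 8 := by
        rw [hδ]
        field_simp
      have h6 := mul_le_mul_of_nonneg_left h4 hδ0.le
      linarith
    linarith
  have hev1 := hl4.eventually (gt_mem_nhds hL)
  have hev2 := Metric.tendsto_nhds.1 hl2 (ε / 8) (by positivity)
  filter_upwards [hev1, hev2, eventually_gt_atTop (0:ℝ)] with V h1 h2 hV
  have hPc := PZ_cont Z bz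
  have hD : LB fun v => ‖((kt v : ℝ) : ℂ) - PZ Z bz v‖ ^ 2 := kt_LB.normsq hPc
  have hR : LB fun v => ‖((ft v : ℝ) : ℂ) - PZ Z ww v‖ ^ 2 := ft_LB.normsq (PZ_cont Z ww)
  have hS : LB fun v => ‖PZ Z bz v‖ ^ 2 := LB.of_cont (by fun_prop)
  have h3 := mn_bound (fun _ => 1) (by intro m; simp) (fun v => ((ft v : ℝ) : ℂ) - PZ Z ww v) hR hV
    (F := fun v => ‖((kt v : ℝ) : ℂ) - PZ Z bz v‖ ^ 2) (T := fun v => tl Z ww v ^ 2) hD (tl_LB Z hre ww).sq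
    (α := 2) (β := 2) (by norm_num) (fun v _ => D_le Z hre v)
  have hk : LB fun v => (1 + 1 / δ) * ‖((kt v : ℝ) : ℂ) - PZ Z bz v‖ ^ 2 + δ * ‖PZ Z bz v‖ ^ 2 :=
    (hD.const_mul _).add (hS.const_mul _)
  have h4 := abs_mn_sub_le (g := fun v => kt v ^ 2) (h := fun v => ‖PZ Z bz v‖ ^ 2) hV (kt_LB.sq.ii hV.le)
    (hS.ii hV.le) (hk.ii hV.le) (fun v _ => by
      rw [← nsq]
      refine sq_diff (norm_nonneg _) (norm_nonneg _) hδ0 ?_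
      exact abs_norm_sub_norm_le _ _)
  rw [mn_add ((hD.const_mul _).ii hV.le) ((hS.const_mul _).ii hV.le), mn_const_mul, mn_const_mul] at h4
  have h5 : (1 + 1 / δ) * mn (fun v => ‖((kt v : ℝ) : ℂ) - PZ Z bz v‖ ^ 2) V ≤
      (1 + 1 / δ) * (2 * (cc ^ 2 * mn (fun v => ‖((ft v : ℝ) : ℂ) - PZ Z ww v‖ ^ 2) V) + 2 * mn (fun v => tl Z ww v ^ 2) V) :=
    mul_le_mul_of_nonneg_left h3 (by positivity)
  rw [Real.dist_eq] at h2 ⊢
  have h6 : |mn (fun v => kt v ^ 2) V - mn (fun v => ‖PZ Z bz v‖ ^ 2) V| < ε / 2 := by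
    refine lt_of_le_of_lt h4 ?_
    refine lt_of_le_of_lt ?_ h1
    linarith
  rw [abs_lt] at h2 h6 hu3 ⊢
  constructor <;> linarith [h2.1, h2.2, h6.1, h6.2, hu3.1, hu3.2]

theorem H2_mn {x : ℝ} (hx : 1 < x) : H2 x / Real.log x = mn (fun v => kt v ^ 2) (Real.log x) := by
  have h1 := H2_eq (Real.log_pos hx).le
  rw [Real.exp_log (by linarith)] at h1
  unfold mn
  rw [h1]

/-- **Job W2.** -/
theorem t_W2 : J_W2 := by
  refine ⟨fun h => ?_, fun h => ?_⟩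
  · refine ((of_zc h).comp Real.tendsto_log_atTop).congr' ?_
    filter_upwards [eventually_gt_atTop (1 : ℝ)] with x hx
    exact (H2_mn hx).symm
  · refine ((not_zc h).comp Real.tendsto_log_atTop).congr' ?_
    filter_upwards [eventually_gt_atTop (1 : ℝ)] with x hx
    exact (H2_mn hx).symm

end Pool.Agent.Q124.FA
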