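import Pool.Agent.Q124.FA.W2
import Pool.Agent.Q120.FA.Stm5

/-!
# Project FA, job W8: the Minkowski step of W2
-/

set_option autoImplicit false

open MeasureTheory Filter Topology Set

namespace Pool.Agent.Q124.FA

open Pool.Agent.TH223.AP
open Pool.Agent.Q120.FA (Mr hh H2 J_W8)

/-- the substitution for `M` -/
theorem M2_eq {V : ℝ} (hV : 0 ≤ V) : ∫ u in (1 : ℝ)..Real.exp V, (Mr u / u) ^ 2 = ∫ v in (0 : ℝ)..V, fv v ^ 2 := by
  rw [intervalIntegral.integral_of_le (Real.one_le_exp hV), intervalIntegral.integral_of_le hV]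
  have himg : Real.exp '' (Ioc 0 V) = Ioc 1 (Real.exp V) := by
    ext x
    constructor
    · rintro ⟨v, hv, rfl⟩
      exact ⟨Real.one_lt_exp_iff.2 hv.1, Real.exp_le_exp.2 hv.2⟩
    · rintro ⟨h1, h2⟩
      have hx : 0 < x := by linarith
      exact ⟨Real.log x, ⟨Real.log_pos h1, (Real.log_le_iff_le_exp hx).2 h2⟩, Real.exp_log hx⟩
  rw [← himg, integral_image_eq_integral_abs_deriv_smul (f' := Real.exp) measurableSet_Ioc
    (fun x _ => (Real.hasDerivAt_exp x).hasDerivWithinAt) (Real.exp_injective.injOn)]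
  refine setIntegral_congr_fun measurableSet_Ioc fun v _ => ?_
  simp only [smul_eq_mul]
  unfold fv
  have h1 : Real.exp (-(v / 2)) ^ 2 = (Real.exp v)⁻¹ := by
    rw [← Real.exp_nat_mul, ← Real.exp_neg]
    congr 1
    push_cast
    ring
  rw [abs_of_pos (Real.exp_pos v), mul_pow, h1, div_pow]
  have := (Real.exp_pos v).ne'
  field_simp

theorem W8_int {V : ℝ} (hV : 0 ≤ V) : ∫ v in (0 : ℝ)..V, fv v ^ 2 ≤ cc ^ 2 * ∫ v in (0 : ℝ)..V, kt v ^ 2 := by
  have hk : LB fun v => ‖((kt v : ℝ) : ℂ)‖ ^ 2 := by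
    simp only [nsq]
    exact kt_LB.sq
  obtain ⟨Φ, h1, h2, h3⟩ := TT_major (fun m => ((ArithmeticFunction.moebius m : ℤ) : ℝ)) moebius_le
    (fun v => ((kt v : ℝ) : ℂ)) hk hV
  simp only [nsq] at h3
  rw [intervalIntegral.integral_of_le hV, intervalIntegral.integral_of_le hV]
  have hi : IntegrableOn (fun v => fv v ^ 2) (Ioc 0 V) := by
    rw [fv_ft]
    exact (intervalIntegrable_iff_integrableOn_Ioc_of_le hV).1 (ft_LB.sq.ii hV)
  refine (setIntegral_mono_on hi h1 measurableSet_Ioc fun v hv => ?_).trans h3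
  have h4 := h2 v hv
  rwa [← fv_eq, nsq] at h4

/-- **Job W8.** -/
theorem t_W8 : J_W8 := by
  refine ⟨cc ^ 2, by have := cc_pos; positivity, fun x hx => ?_⟩
  have hV := Real.log_nonneg hx
  have h := W8_int hV
  rw [← M2_eq hV, ← H2_eq hV, Real.exp_log (by linarith)] at h
  exact h

end Pool.Agent.Q124.FA
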