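import Pool.Agent.TH223.AP.A2
import Pool.Agent.Q120.FA.Stm4

/-!
# Project FA, job W2, part 1: the operator `∑ a(m) m^(-3/2) g(v - log m)`
-/

set_option autoImplicit false

open MeasureTheory Filter Topology Set

namespace Pool.Agent.Q124.FA

open Pool.Agent.TH223.AP
open Pool.Agent.Q120.FA (Mr hh H2)

/-- `m^(-3/2)` -/
noncomputable def cf (m : ℕ) : ℝ := (m : ℝ) ^ (-(3 / 2) : ℝ)

theorem cf_nonneg (m : ℕ) : 0 ≤ cf m := Real.rpow_nonneg (Nat.cast_nonneg m) _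

theorem cf_summable : Summable cf := Real.summable_nat_rpow.2 (by norm_num)

/-- `ζ(3/2)` -/
noncomputable def cc : ℝ := ∑' m, cf m

theorem sum_cf_le (s : Finset ℕ) : ∑ m ∈ s, cf m ≤ cc :=
  cf_summable.sum_le_tsum s (fun m _ => cf_nonneg m)

theorem cc_pos : 0 < cc := by
  have h := sum_cf_le {1}
  rw [Finset.sum_singleton] at h
  have h1 : cf 1 = 1 := by unfold cf; simp
  linarith

/-- the operator -/
noncomputable def TT (a : ℕ → ℝ) (g : ℝ → ℂ) (v : ℝ) : ℂ :=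
  ∑ m ∈ Finset.Icc 1 ⌊Real.exp v⌋₊, ((a m * cf m : ℝ) : ℂ) * g (v - Real.log m)

theorem log_le_of_mem {m : ℕ} {v : ℝ} (h : m ∈ Finset.Icc 1 ⌊Real.exp v⌋₊) :
    0 ≤ Real.log m ∧ Real.log m ≤ v ∧ (1 : ℝ) ≤ m := by
  obtain ⟨h1, h2⟩ := Finset.mem_Icc.1 h
  have h3 : (1 : ℝ) ≤ m := by exact_mod_cast h1
  have h4 : (m : ℝ) ≤ Real.exp v := (Nat.le_floor_iff (Real.exp_pos v).le).1 h2
  refine ⟨Real.log_nonneg h3, ?_, h3⟩
  rw [Real.log_le_iff_le_exp (by linarith)]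
  exact h4

/-- the mean square bound, with a majorant -/
theorem TT_major (a : ℕ → ℝ) (ha : ∀ m, |a m| ≤ 1) (g : ℝ → ℂ) (hg : LB fun v => ‖g v‖ ^ 2) {V : ℝ}
    (hV : 0 ≤ V) : ∃ Φ : ℝ → ℝ, IntegrableOn Φ (Ioc 0 V) ∧ (∀ v ∈ Ioc 0 V, ‖TT a g v‖ ^ 2 ≤ Φ v) ∧
      ∫ v in Ioc 0 V, Φ v ≤ cc ^ 2 * ∫ v in Ioc 0 V, ‖g v‖ ^ 2 := by
  obtain ⟨G, hG⟩ : ∃ G : ℝ → ℝ, G = indicator (Icc 0 V) (fun v => ‖g v‖ ^ 2) := ⟨_, rfl⟩
  have hi0 : IntegrableOn (fun v => ‖g v‖ ^ 2) (Icc 0 V) := by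
    rw [integrableOn_Icc_iff_integrableOn_Ioc]
    exact (intervalIntegrable_iff_integrableOn_Ioc_of_le hV).1 (hg.ii hV)
  have hGi : Integrable G := by
    rw [hG]
    exact (integrable_indicator_iff measurableSet_Icc).2 hi0
  have hG0 : ∀ v, 0 ≤ G v := fun v => by
    rw [hG]
    exact indicator_nonneg (fun _ _ => by positivity) v
  have hGI : ∫ v, G v = ∫ v in Ioc 0 V, ‖g v‖ ^ 2 := by
    rw [hG, integral_indicator measurableSet_Icc, integral_Icc_eq_integral_Ioc]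
  obtain ⟨N, hN⟩ : ∃ N : ℕ, N = ⌊Real.exp V⌋₊ := ⟨_, rfl⟩
  have hGs : ∀ m : ℕ, Integrable fun v => G (v - Real.log m) := fun m => hGi.comp_sub_right _
  refine ⟨fun v => cc * ∑ m ∈ Finset.Icc 1 N, cf m * G (v - Real.log m), ?_, ?_, ?_⟩
  · refine Integrable.const_mul ?_ _
    exact integrable_finsetSum _ fun m _ => ((hGs m).const_mul _).integrableOn
  · intro v hv
    have h1 : ‖TT a g v‖ ≤ ∑ m ∈ Finset.Icc 1 ⌊Real.exp v⌋₊, cf m * ‖g (v - Real.log m)‖ := by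
      unfold TT
      refine (norm_sum_le _ _).trans (Finset.sum_le_sum fun m _ => ?_)
      rw [norm_mul, Complex.norm_real, Real.norm_eq_abs, abs_mul, abs_of_nonneg (cf_nonneg m)]
      refine mul_le_mul_of_nonneg_right ?_ (norm_nonneg _)
      exact mul_le_of_le_one_left (cf_nonneg m) (ha m)
    have h2 : ‖TT a g v‖ ^ 2 ≤ (∑ m ∈ Finset.Icc 1 ⌊Real.exp v⌋₊, cf m * ‖g (v - Real.log m)‖) ^ 2 :=
      pow_le_pow_left₀ (norm_nonneg _) h1 2
    have h3 : (∑ m ∈ Finset.Icc 1 ⌊Real.exp v⌋₊, cf m * ‖g (v - Real.log m)‖) ^ 2 ≤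
        (∑ m ∈ Finset.Icc 1 ⌊Real.exp v⌋₊, cf m) *
          ∑ m ∈ Finset.Icc 1 ⌊Real.exp v⌋₊, cf m * ‖g (v - Real.log m)‖ ^ 2 := by
      refine Finset.sum_sq_le_sum_mul_sum_of_sq_le_mul _ (fun m _ => cf_nonneg m)
        (fun m _ => mul_nonneg (cf_nonneg m) (by positivity)) (fun m _ => le_of_eq (by ring))
    have h4 : ∑ m ∈ Finset.Icc 1 ⌊Real.exp v⌋₊, cf m * ‖g (v - Real.log m)‖ ^ 2 =
        ∑ m ∈ Finset.Icc 1 ⌊Real.exp v⌋₊, cf m * G (v - Real.log m) := by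
      refine Finset.sum_congr rfl fun m hm => ?_
      obtain ⟨e1, e2, e3⟩ := log_le_of_mem hm
      rw [hG, indicator_of_mem]
      exact ⟨by linarith, by linarith [hv.2]⟩
    have h5 : ∑ m ∈ Finset.Icc 1 ⌊Real.exp v⌋₊, cf m * G (v - Real.log m) ≤
        ∑ m ∈ Finset.Icc 1 N, cf m * G (v - Real.log m) := by
      refine Finset.sum_le_sum_of_subset_of_nonneg ?_ (fun m _ _ => mul_nonneg (cf_nonneg m) (hG0 _))
      refine Finset.Icc_subset_Icc le_rfl ?_
      rw [hN]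
      exact Nat.floor_le_floor (Real.exp_le_exp.2 hv.2)
    have h6 : 0 ≤ ∑ m ∈ Finset.Icc 1 N, cf m * G (v - Real.log m) :=
      Finset.sum_nonneg fun m _ => mul_nonneg (cf_nonneg m) (hG0 _)
    refine h2.trans (h3.trans ?_)
    rw [h4]
    refine mul_le_mul (sum_cf_le _) h5 ?_ cc_pos.le
    exact Finset.sum_nonneg fun m _ => mul_nonneg (cf_nonneg m) (hG0 _)
  · rw [integral_const_mul, integral_finsetSum _ fun m _ => ((hGs m).const_mul _).integrableOn]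
    have h1 : ∀ m ∈ Finset.Icc 1 N, ∫ v in Ioc 0 V, cf m * G (v - Real.log m) ≤ cf m * ∫ v, G v := by
      intro m _
      rw [integral_const_mul]
      refine mul_le_mul_of_nonneg_left ?_ (cf_nonneg m)
      rw [← integral_sub_right_eq_self G (Real.log m)]
      exact setIntegral_le_integral (hGs m) (Eventually.of_forall fun v => hG0 _)
    have h2 := Finset.sum_le_sum h1
    rw [← Finset.sum_mul] at h2
    have h3 : 0 ≤ ∫ v, G v := integral_nonneg hG0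
    have h4 := mul_le_mul_of_nonneg_right (sum_cf_le (Finset.Icc 1 N)) h3
    rw [← hGI]
    calc cc * ∑ m ∈ Finset.Icc 1 N, ∫ v in Ioc 0 V, cf m * G (v - Real.log m)
        ≤ cc * (cc * ∫ v, G v) := mul_le_mul_of_nonneg_left (h2.trans h4) cc_pos.le
      _ = cc ^ 2 * ∫ v, G v := by ring

/-! ## The functions `f`, `k` -/

/-- `f(v) = M(e^v) e^(-v/2)` -/
noncomputable def fv (v : ℝ) : ℝ := Mr (Real.exp v) * Real.exp (-(v / 2))

/-- `k(v) = h(e^v) e^(-v/2)` -/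
noncomputable def kt (v : ℝ) : ℝ := hh (Real.exp v) * Real.exp (-(v / 2))

theorem cf_exp {m : ℕ} (hm : 1 ≤ m) : cf m = Real.exp (-(3 / 2) * Real.log m) := by
  have h : (0 : ℝ) < m := by exact_mod_cast hm
  unfold cf
  rw [Real.rpow_def_of_pos h]
  congr 1
  ring

theorem cf_mul {m : ℕ} (hm : 1 ≤ m) (v : ℝ) :
    cf m * Real.exp (-((v - Real.log m) / 2)) = Real.exp (-(v / 2)) / m := by
  have h : (0 : ℝ) < m := by exact_mod_cast hm
  have h1 : Real.exp (-(v / 2)) / m = Real.exp (-(v / 2)) * Real.exp (-Real.log m) := by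
    rw [Real.exp_neg (Real.log m), Real.exp_log h, div_eq_mul_inv]
  rw [cf_exp hm, ← Real.exp_add, h1, ← Real.exp_add]
  congr 1
  ring

theorem exp_sub_log {m : ℕ} (hm : 1 ≤ m) (v : ℝ) : Real.exp (v - Real.log m) = Real.exp v / m := by
  have h : (0 : ℝ) < m := by exact_mod_cast hm
  rw [Real.exp_sub, Real.exp_log h]

/-- `k` from `f` -/
theorem kt_eq (v : ℝ) : ((kt v : ℝ) : ℂ) = TT (fun _ => 1) (fun v => ((fv v : ℝ) : ℂ)) v := by
  have h : kt v = ∑ m ∈ Finset.Icc 1 ⌊Real.exp v⌋₊, (1 * cf m) * fv (v - Real.log m) := by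
    unfold kt hh
    rw [Finset.sum_mul]
    refine Finset.sum_congr rfl fun m hm => ?_
    have hm1 := (Finset.mem_Icc.1 hm).1
    unfold fv
    rw [exp_sub_log hm1, one_mul, ← mul_assoc, mul_comm (cf m), mul_assoc, cf_mul hm1]
    ring
  unfold TT
  rw [h]
  push_cast
  rfl

/-- rearrangement of a double sum -/
theorem dsum (H : ℕ → ℕ → ℝ) (N : ℕ) :
    ∑ m ∈ Finset.Icc 1 N, ∑ j ∈ Finset.Icc 1 (N / m), H m j =
      ∑ n ∈ Finset.Icc 1 N, ∑ x ∈ n.divisorsAntidiagonal, H x.1 x.2 := by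
  rw [Finset.sum_sigma', Finset.sum_sigma']
  refine Finset.sum_bij' (fun x _ => ⟨x.1 * x.2, (x.1, x.2)⟩) (fun x _ => ⟨x.2.1, x.2.2⟩) ?_ ?_ ?_ ?_ ?_
  · rintro ⟨m, j⟩ hx
    rw [Finset.mem_sigma, Finset.mem_Icc, Finset.mem_Icc] at hx
    obtain ⟨⟨h1, h2⟩, h3, h4⟩ := hx
    simp only at h1 h2 h3 h4
    rw [Finset.mem_sigma, Finset.mem_Icc, Nat.mem_divisorsAntidiagonal]
    have h5 : m * j ≤ N := by
      rw [mul_comm]
      exact (Nat.le_div_iff_mul_le (by omega)).1 h4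
    have h6 : 0 < m * j := Nat.mul_pos (by omega) (by omega)
    exact ⟨⟨h6, h5⟩, rfl, h6.ne'⟩
  · rintro ⟨n, ⟨m, j⟩⟩ hx
    rw [Finset.mem_sigma, Finset.mem_Icc, Nat.mem_divisorsAntidiagonal] at hx
    obtain ⟨⟨h1, h2⟩, h3, h4⟩ := hx
    simp only at h1 h2 h3 h4
    rw [Finset.mem_sigma, Finset.mem_Icc, Finset.mem_Icc]
    have hm : 0 < m := Nat.pos_of_ne_zero (by rintro rfl; omega)
    have hj : 0 < j := Nat.pos_of_ne_zero (by rintro rfl; omega)
    simp only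
    refine ⟨⟨hm, ?_⟩, hj, ?_⟩
    · exact (Nat.le_mul_of_pos_right m hj).trans (h3.le.trans h2)
    · rw [Nat.le_div_iff_mul_le hm, mul_comm]
      exact h3.le.trans h2
  · rintro ⟨m, j⟩ _
    rfl
  · rintro ⟨n, ⟨m, j⟩⟩ hx
    rw [Finset.mem_sigma, Finset.mem_Icc, Nat.mem_divisorsAntidiagonal] at hx
    obtain ⟨-, h3, -⟩ := hx
    simp only at h3
    subst h3
    rfl
  · rintro ⟨m, j⟩ _
    rfl

theorem moebius_sum (n : ℕ) :
    ∑ x ∈ n.divisorsAntidiagonal, ((ArithmeticFunction.moebius x.1 : ℤ) : ℝ) = if n = 1 then 1 else 0 := by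
  have h : ∑ x ∈ n.divisorsAntidiagonal, (ArithmeticFunction.moebius x.1 : ℤ) = if n = 1 then 1 else 0 := by
    have h1 : (ArithmeticFunction.moebius * (ArithmeticFunction.zeta : ArithmeticFunction ℤ)) n = (1 : ArithmeticFunction ℤ) n := by
      rw [ArithmeticFunction.moebius_mul_coe_zeta]
    rw [ArithmeticFunction.mul_apply, ArithmeticFunction.one_apply] at h1
    rw [← h1]
    refine Finset.sum_congr rfl fun x hx => ?_
    have h2 : x.2 ≠ 0 := (Nat.pos_of_mem_divisors (Nat.snd_mem_divisors_of_mem_antidiagonal hx)).ne'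
    rw [ArithmeticFunction.natCoe_apply, ArithmeticFunction.zeta_apply, if_neg h2]
    simp
  exact_mod_cast h

/-- Moebius inversion for `h` -/
theorem Mr_inv (y : ℝ) : Mr y = ∑ m ∈ Finset.Icc 1 ⌊y⌋₊, (((ArithmeticFunction.moebius m : ℤ) : ℝ) / m) * hh (y / m) := by
  have h1 : ∀ m ∈ Finset.Icc 1 ⌊y⌋₊, (((ArithmeticFunction.moebius m : ℤ) : ℝ) / m) * hh (y / m) =
      ∑ j ∈ Finset.Icc 1 (⌊y⌋₊ / m), ((ArithmeticFunction.moebius m : ℤ) : ℝ) *
        (Mr (y / ((m * j : ℕ) : ℝ)) / ((m * j : ℕ) : ℝ)) := by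
    intro m _
    unfold hh
    rw [Nat.floor_div_natCast, Finset.mul_sum]
    refine Finset.sum_congr rfl fun j _ => ?_
    push_cast
    rw [div_div]
    ring
  rw [Finset.sum_congr rfl h1, dsum (fun m j => ((ArithmeticFunction.moebius m : ℤ) : ℝ) *
        (Mr (y / ((m * j : ℕ) : ℝ)) / ((m * j : ℕ) : ℝ)))]
  have h2 : ∀ n ∈ Finset.Icc 1 ⌊y⌋₊, ∑ x ∈ n.divisorsAntidiagonal, ((ArithmeticFunction.moebius x.1 : ℤ) : ℝ) *
        (Mr (y / ((x.1 * x.2 : ℕ) : ℝ)) / ((x.1 * x.2 : ℕ) : ℝ)) = (if n = 1 then 1 else 0) * (Mr (y / n) / n) := by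
    intro n hn
    rw [← moebius_sum n, Finset.sum_mul]
    refine Finset.sum_congr rfl fun x hx => ?_
    rw [(Nat.mem_divisorsAntidiagonal.1 hx).1]
  rw [Finset.sum_congr rfl h2]
  by_cases hy : 1 ≤ ⌊y⌋₊
  · rw [Finset.sum_eq_single 1]
    · simp
    · intro n _ hn
      rw [if_neg hn, zero_mul]
    · intro h
      exact absurd (Finset.mem_Icc.2 ⟨le_rfl, hy⟩) h
  · have h0 : ⌊y⌋₊ = 0 := by omega
    unfold Mr
    rw [h0]
    simp

/-- `f` from `k` -/
theorem fv_eq (v : ℝ) : ((fv v : ℝ) : ℂ) = TT (fun m => ((ArithmeticFunction.moebius m : ℤ) : ℝ))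
    (fun v => ((kt v : ℝ) : ℂ)) v := by
  have h : fv v = ∑ m ∈ Finset.Icc 1 ⌊Real.exp v⌋₊, (((ArithmeticFunction.moebius m : ℤ) : ℝ) * cf m) *
      kt (v - Real.log m) := by
    unfold fv
    rw [Mr_inv (Real.exp v), Finset.sum_mul]
    refine Finset.sum_congr rfl fun m hm => ?_
    have hm1 := (Finset.mem_Icc.1 hm).1
    unfold kt
    rw [exp_sub_log hm1]
    have := cf_mul hm1 v
    calc ((ArithmeticFunction.moebius m : ℤ) : ℝ) / m * hh (Real.exp v / m) * Real.exp (-(v / 2)) =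
        ((ArithmeticFunction.moebius m : ℤ) : ℝ) * hh (Real.exp v / m) * (Real.exp (-(v / 2)) / m) := by ring
      _ = ((ArithmeticFunction.moebius m : ℤ) : ℝ) * cf m *
          (hh (Real.exp v / m) * Real.exp (-((v - Real.log m) / 2))) := by rw [← this]; ring
  unfold TT
  rw [h]
  push_cast
  rfl

theorem moebius_le (m : ℕ) : |((ArithmeticFunction.moebius m : ℤ) : ℝ)| ≤ 1 := by
  have := ArithmeticFunction.abs_moebius_le_one (n := m)
  exact_mod_cast this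

/-! ## Measurability -/

theorem meas_floor {E : Type} [MeasurableSpace E] [AddCommMonoid E] [MeasurableAdd₂ E] (F : ℕ → ℝ → E)
    (hF : ∀ m, Measurable (F m)) : Measurable fun y : ℝ => ∑ m ∈ Finset.Icc 1 ⌊y⌋₊, F m y := by
  have h : Measurable fun p : ℝ × ℕ => ∑ m ∈ Finset.Icc 1 p.2, F m p.1 := by
    refine measurable_from_prod_countable_left fun n => ?_
    show Measurable fun x : ℝ => ∑ m ∈ Finset.Icc 1 n, F m x
    exact Finset.measurable_fun_sum (Finset.Icc 1 n) fun m _ => hF m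
  exact h.comp (measurable_id.prodMk Nat.measurable_floor)

theorem Mr_meas : Measurable Mr := by
  unfold Mr
  exact meas_floor _ fun m => measurable_const

theorem hh_meas : Measurable hh := by
  unfold hh
  exact meas_floor _ fun m => (Mr_meas.comp (measurable_id.div_const _)).div_const _

theorem Mr_le {y : ℝ} (hy : 0 ≤ y) : |Mr y| ≤ y := by
  unfold Mr
  refine (Finset.abs_sum_le_sum_abs _ _).trans ?_
  refine (Finset.sum_le_sum fun m _ => moebius_le m).trans ?_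
  rw [Finset.sum_const, nsmul_eq_mul, mul_one, Nat.card_Icc, Nat.add_sub_cancel]
  exact Nat.floor_le hy

theorem hh_le {y : ℝ} (hy : 0 ≤ y) : |hh y| ≤ y * y := by
  unfold hh
  refine (Finset.abs_sum_le_sum_abs _ _).trans ?_
  have h1 : ∀ m ∈ Finset.Icc 1 ⌊y⌋₊, |Mr (y / m) / m| ≤ y := by
    intro m hm
    have hm1 : (1 : ℝ) ≤ m := by exact_mod_cast (Finset.mem_Icc.1 hm).1
    rw [abs_div, abs_of_pos (by linarith : (0 : ℝ) < m)]
    have h2 := Mr_le (div_nonneg hy (by linarith : (0 : ℝ) ≤ m))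
    have h3 : y / m ≤ y := div_le_self hy hm1
    exact (div_le_self (abs_nonneg _) hm1).trans (h2.trans h3)
  refine (Finset.sum_le_sum h1).trans ?_
  rw [Finset.sum_const, nsmul_eq_mul, Nat.card_Icc, Nat.add_sub_cancel]
  exact mul_le_mul_of_nonneg_right (Nat.floor_le hy) hy

theorem kt_LB : LB kt := by
  refine ⟨?_, fun V => ⟨Real.exp V * Real.exp V, fun v hv => ?_⟩⟩
  · unfold kt
    exact (hh_meas.comp Real.measurable_exp).mul (by fun_prop)
  · unfold kt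
    rw [abs_mul, abs_of_pos (Real.exp_pos (-(v / 2)))]
    have h1 := hh_le (Real.exp_pos v).le
    have h2 : Real.exp (-(v / 2)) ≤ 1 := Real.exp_le_one_iff.2 (by linarith [hv.1])
    have h3 : Real.exp v ≤ Real.exp V := Real.exp_le_exp.2 hv.2
    calc |hh (Real.exp v)| * Real.exp (-(v / 2)) ≤ (Real.exp v * Real.exp v) * 1 :=
          mul_le_mul h1 h2 (Real.exp_pos _).le (by positivity)
      _ ≤ Real.exp V * Real.exp V := by
          rw [mul_one]
          exact mul_le_mul h3 h3 (Real.exp_pos _).le (Real.exp_pos _).le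

/-- the substitution -/
theorem H2_eq {V : ℝ} (hV : 0 ≤ V) : H2 (Real.exp V) = ∫ v in (0 : ℝ)..V, kt v ^ 2 := by
  unfold H2
  rw [intervalIntegral.integral_of_le (Real.one_le_exp hV), intervalIntegral.integral_of_le hV]
  have himg : Real.exp '' (Ioc 0 V) = Ioc 1 (Real.exp V) := by
    ext x
    constructor
    · rintro ⟨v, hv, rfl⟩
      exact ⟨Real.one_lt_exp_iff.2 hv.1, Real.exp_le_exp.2 hv.2⟩
    · rintro ⟨h1, h2⟩
      have hx : 0 < x := by linarith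
      exact ⟨Real.log x, ⟨Real.log_pos h1, (Real.log_le_iff_le_exp hx).2 h2⟩, Real.exp_log hx⟩
  rw [← himg, integral_image_eq_integral_abs_deriv_smul (f' := Real.exp) measurableSet_Ioc
    (fun x _ => (Real.hasDerivAt_exp x).hasDerivWithinAt) (Real.exp_injective.injOn)]
  refine setIntegral_congr_fun measurableSet_Ioc fun v _ => ?_
  simp only [smul_eq_mul]
  unfold kt
  have h1 : Real.exp (-(v / 2)) ^ 2 = (Real.exp v)⁻¹ := by
    rw [← Real.exp_nat_mul, ← Real.exp_neg]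
    congr 1
    push_cast
    ring
  rw [abs_of_pos (Real.exp_pos v), mul_pow, h1, div_pow]
  have := (Real.exp_pos v).ne'
  field_simp

end Pool.Agent.Q124.FA
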